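import Pool.Agent.FCB.All
import Pool.Agent.FCB.Chain

set_option autoImplicit false

namespace Pool.Agent.Results.MP_058773_gt.NotExponentiallySeparable

open Set Cardinal Filter Pool.Agent.FCB

/-- There is a normal Hausdorff functionally countable space which is not exponentially
separable: it has closed sets `F 0, F 1, ...` such that no countable set `D` meets every nonempty
intersection of a subfamily. The proof distinguishes whether every set of at most `ℵ₁` functions
from `ℕ` to `ℕ` is bounded modulo finite sets (`case_large`, a space on `ω₂ × ℕ`) or not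
(`p_FIN`, a first countable and locally countable space on `ω₁ × ℕ`). -/
theorem result :
    ∃ (X : Type) (_ : TopologicalSpace X), T2Space X ∧ NormalSpace X ∧
      (∀ f : X → ℝ, Continuous f → (Set.range f).Countable) ∧
      ∃ F : ℕ → Set X, (∀ n, IsClosed (F n)) ∧
        ∀ D : Set X, D.Countable →
          ∃ S : Set ℕ, (⋂ n ∈ S, F n).Nonempty ∧ D ∩ ⋂ n ∈ S, F n = ∅ := by
  by_cases hb : ∀ F : Set (ℕ → ℕ), #F ≤ Cardinal.aleph 1 →
      ∃ g : ℕ → ℕ, ∀ f ∈ F, ∀ᶠ n in atTop, f n ≤ g n
  · exact case_large hb
  · obtain ⟨X, τ, h1, h2, -, -, -, h3, h4, -⟩ := p_FIN hb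
    exact ⟨X, τ, h1, h2, h3, h4⟩

end Pool.Agent.Results.MP_058773_gt.NotExponentiallySeparable
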